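import Mathlib.CategoryTheory.Triangulated.Functor
import Mathlib.CategoryTheory.Linear.Yoneda
import Mathlib.LinearAlgebra.Dual.Defs
import Mathlib.Analysis.Complex.Basic
import Pool.Agent.N801.CF.MukaiDefs

/-!
# Derived categories of surfaces and Kuznetsov components of cubic fourfolds: definitions

We describe the bounded derived category of a smooth projective surface, and the Kuznetsov
component of a cubic fourfold, as triangulated categories with their known properties.
-/

set_option autoImplicit false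

open CategoryTheory CategoryTheory.Limits CategoryTheory.Pretriangulated

universe v u

namespace Pool.Agent.N801.KO

section

variable (𝒟 : Type u) [Category.{v} 𝒟] [Preadditive 𝒟] [HasZeroObject 𝒟] [HasShift 𝒟 ℤ]
  [∀ n : ℤ, (shiftFunctor 𝒟 n).Additive] [Pretriangulated 𝒟] [Linear ℂ 𝒟]

/-- The sum of the dimensions of the spaces `Hom(E, F[i])`, `i ∈ ℤ`, is finite. -/
def FiniteType : Prop :=
  ∀ E F : 𝒟, (∀ i : ℤ, Module.Finite ℂ (E ⟶ F⟦i⟧)) ∧ {i : ℤ | ∃ f : E ⟶ F⟦i⟧, f ≠ 0}.Finite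

variable {𝒟}

/-- The Euler form `χ(E, F) = ∑ (-1)^i dim Hom(E, F[i])`. -/
noncomputable def chi (E F : 𝒟) : ℤ :=
  ∑ᶠ i : ℤ, (i.negOnePow : ℤ) * (Module.finrank ℂ (E ⟶ F⟦i⟧) : ℤ)

variable (𝒟)

/-- The category is (left) saturated: every covariant cohomological functor `P` of finite type to
vector spaces is representable by an object `R`, with a universal element `x` of `P R`. -/
def Saturated : Prop :=
  ∀ (P : 𝒟 ⥤ ModuleCat.{v} ℂ) [P.Additive] [Functor.Linear ℂ P],
    (∀ T ∈ distTriang 𝒟, Function.Exact (P.map T.mor₁).hom (P.map T.mor₂).hom) →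
    (∀ E : 𝒟, (∀ i : ℤ, Module.Finite ℂ (P.obj (E⟦i⟧))) ∧
      {i : ℤ | ∃ x : P.obj (E⟦i⟧), x ≠ 0}.Finite) →
    ∃ (R : 𝒟) (x : P.obj R), ∀ E : 𝒟, Function.Bijective fun f : R ⟶ E => (P.map f).hom x

/-- The Euler form is unimodular on the numerical Grothendieck group: if all `χ(F, E)` are divisible
by `m`, then the class of `E` is, numerically, `m` times the class of an object. -/
def Unimodular : Prop :=
  ∀ (E : 𝒟) (m : ℤ), (∀ F, m ∣ chi F E) → ∃ E' : 𝒟, ∀ F, chi F E = m * chi F E'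

/-- Serre duality for the functor `K`, the tensor product with the canonical bundle of a surface:
`K[2]` is a Serre functor, that is, there are isomorphisms `Hom(E, F) ≃ Hom(F, (K E)[2])^*`,
natural in `E` and `F`. -/
def SerreDuality (K : 𝒟 ⥤ 𝒟) : Prop :=
  ∃ η : ∀ E F : 𝒟, (E ⟶ F) ≃ₗ[ℂ] Module.Dual ℂ (F ⟶ (K.obj E)⟦(2 : ℤ)⟧),
    ∀ {E E' F F' : 𝒟} (a : E' ⟶ E) (f : E ⟶ F) (b : F ⟶ F') (w : F' ⟶ (K.obj E')⟦(2 : ℤ)⟧),
      η E' F' (a ≫ f ≫ b) w = η E F f (b ≫ w ≫ (K.map a)⟦(2 : ℤ)⟧')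

/-- The known properties of the bounded derived category `𝒟` of coherent sheaves on a smooth
projective complex surface `S`:

* it is of finite type;
* `K`, the tensor product with the canonical bundle `K_S`, is an exact autoequivalence, with Serre
  duality;
* the structure sheaves `k` of the points have one-dimensional endomorphism rings, `χ(k, k) = 0`,
  and `χ(O_S, k) = 1` (in general, `χ(E, k)` is the rank of `E`);
* for objects `E`, `F` of rank `0` one has `χ(E, F) = - c₁(E).c₁(F)` (Riemann and Roch), so the Hodge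
  index theorem says that `χ(E, E) χ(F, F) ≤ χ(E, F)²` if `χ(E, E) < 0`;
* if the geometric genus is positive, then a section `s ≠ 0` of `K_S` gives a transformation
  from the identity to `K`, which is an isomorphism for the points where `s` is not zero; otherwise
  all classes in `H²(S, ℤ)` are algebraic (Lefschetz), so by Poincaré duality and by the theorem of
  Riemann and Roch the Euler form is unimodular on the numerical Grothendieck group. -/
structure SurfaceCat where
  finite : FiniteType 𝒟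
  K : 𝒟 ⥤ 𝒟
  commShift : K.CommShift ℤ
  triangulated : K.IsTriangulated
  equivalence : K.IsEquivalence
  serre : SerreDuality 𝒟 K
  pt : Set 𝒟
  pt_end : ∀ k ∈ pt, Module.finrank ℂ (k ⟶ k) = 1
  pt_self : ∀ k ∈ pt, chi k k = 0
  pt_rank : ∀ k ∈ pt, ∃ E, chi E k = 1
  hodge_index : ∀ k ∈ pt, ∀ E F : 𝒟, chi k E = 0 → chi k F = 0 → chi E E < 0 →
    chi E E * chi F F ≤ chi E F ^ 2
  genus : (∃ s : 𝟭 𝒟 ⟶ K, ∃ k ∈ pt, IsIso (s.app k)) ∨ Unimodular 𝒟

end

open Pool.Agent.Y95.Q Pool.Agent.N801.CF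

variable {X : CubicFourfold} (H : H4 X)
  (𝒜 : Type u) [Category.{v} 𝒜] [Preadditive 𝒜] [HasZeroObject 𝒜] [HasShift 𝒜 ℤ]
  [∀ n : ℤ, (shiftFunctor 𝒜 n).Additive] [Pretriangulated 𝒜] [Linear ℂ 𝒜]

/-- The known properties of the Kuznetsov component `𝒜 = Ku(X)` of a cubic fourfold `X`: it is of
finite type and saturated (Bondal, Kapranov), and the Mukai vectors `vec` of its objects are the
elements of the algebraic Mukai lattice `N(X)`, with `χ(E, F) = - (vec E, vec F)` (Addington, Thomas).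
The lattice is presented as in `InMukai` and `mukaiPairing`, with classes modulo `ℤ h`. -/
structure KuznetsovCat where
  finite : FiniteType 𝒜
  saturated : Saturated 𝒜
  vec : 𝒜 → (Fin 23 → ℤ) × ℤ × ℤ
  mem : ∀ E, InMukai H (vec E).1 (vec E).2.1 (vec E).2.2
  surj : ∀ (w : Fin 23 → ℤ) (a b : ℤ), InMukai H w a b →
    ∃ (E : 𝒜) (l : ℤ), vec E = (w + l • H.h, a, b)
  euler : ∀ E F : 𝒜, chi E F =
    - mukaiPairing H (vec E).1 (vec E).2.1 (vec E).2.2 (vec F).1 (vec F).2.1 (vec F).2.2

/-- No surface `S` admits a fully faithful exact functor from the Kuznetsov component of `X` to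
`D(S)`: there is no such functor `Φ` from a category `𝒜` with the known properties of `Ku(X)` to a
category `𝒟` with the known properties of `D(S)`. -/
def NoEmbedding : Prop :=
  ∀ (𝒜 : Type u) [Category.{v} 𝒜] [Preadditive 𝒜] [HasZeroObject 𝒜] [HasShift 𝒜 ℤ]
    [∀ n : ℤ, (shiftFunctor 𝒜 n).Additive] [Pretriangulated 𝒜] [Linear ℂ 𝒜]
    (𝒟 : Type u) [Category.{v} 𝒟] [Preadditive 𝒟] [HasZeroObject 𝒟] [HasShift 𝒟 ℤ]
    [∀ n : ℤ, (shiftFunctor 𝒟 n).Additive] [Pretriangulated 𝒟] [Linear ℂ 𝒟]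
    [∀ n : ℤ, Functor.Linear ℂ (shiftFunctor 𝒟 n)]
    (Φ : 𝒜 ⥤ 𝒟) [Φ.CommShift ℤ] [Φ.IsTriangulated] [Functor.Linear ℂ Φ],
    Nonempty (KuznetsovCat H 𝒜) → Nonempty (SurfaceCat 𝒟) → ¬ (Φ.Full ∧ Φ.Faithful)

/-- The property `P` holds for a very general cubic fourfold: it holds for all cubic fourfolds
outside a countable union of zero loci of polynomials in the coefficients of the equation, none of
which vanishes for all smooth cubic fourfolds. -/
def VeryGeneral (P : CubicFourfold → Prop) : Prop :=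
  ∃ f : ℕ → MvPolynomial (Fin 6 →₀ ℕ) ℂ,
    (∀ n, ∃ X : CubicFourfold, MvPolynomial.eval (fun m => X.F.coeff m) (f n) ≠ 0) ∧
    ∀ X : CubicFourfold, (∀ n, MvPolynomial.eval (fun m => X.F.coeff m) (f n) ≠ 0) → P X

end Pool.Agent.N801.KO
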