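import Mathlib
import Pool.Agent.N801.KO.Defs

/-!
# Shifts, exact sequences and Euler forms
-/

set_option autoImplicit false
set_option linter.unusedSectionVars false

open CategoryTheory CategoryTheory.Limits CategoryTheory.Pretriangulated

universe v u

namespace Pool.Agent.N801.KO

variable {𝒟 : Type u} [Category.{v} 𝒟] [Preadditive 𝒟] [HasZeroObject 𝒟] [HasShift 𝒟 ℤ]
  [∀ n : ℤ, (shiftFunctor 𝒟 n).Additive] [Pretriangulated 𝒟]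

theorem unit_smul_eq_zero {X Y : 𝒟} (ε : ℤˣ) {f : X ⟶ Y} (h : ε • f = 0) : f = 0 := by
  have : ε • (ε • f) = 0 := by rw [h, smul_zero]
  rw [smul_smul, Int.units_mul_self, one_smul] at this
  exact this

theorem comp_unit_smul {X Y Z : 𝒟} (f : X ⟶ Y) (ε : ℤˣ) (g : Y ⟶ Z) :
    f ≫ (ε • g) = ε • (f ≫ g) := by
  rw [Units.smul_def, Units.smul_def, Preadditive.comp_zsmul]

theorem unit_smul_comp {X Y Z : 𝒟} (f : X ⟶ Y) (ε : ℤˣ) (g : Y ⟶ Z) :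
    (ε • f) ≫ g = ε • (f ≫ g) := by
  rw [Units.smul_def, Units.smul_def, Preadditive.zsmul_comp]

theorem map_unit_smul {X Y : 𝒟} (ε : ℤˣ) (f : X ⟶ Y) (n : ℤ) :
    (ε • f)⟦n⟧' = ε • f⟦n⟧' := by
  rw [Units.smul_def, Units.smul_def, Functor.map_zsmul]

/-- the shifted triangle -/
theorem shifted {X₁ X₂ X₃ : 𝒟} {f : X₁ ⟶ X₂} {g : X₂ ⟶ X₃} {h : X₃ ⟶ X₁⟦(1 : ℤ)⟧}
    (hT : Triangle.mk f g h ∈ distTriang 𝒟) (i : ℤ) :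
    ∃ δ : X₃⟦i⟧ ⟶ (X₁⟦i⟧)⟦(1 : ℤ)⟧,
      Triangle.mk (i.negOnePow • f⟦i⟧') (i.negOnePow • g⟦i⟧') δ ∈ distTriang 𝒟 :=
  ⟨_, Triangle.shift_distinguished _ hT i⟩

/-- exactness in the middle, shifted -/
theorem exact_mid {X₁ X₂ X₃ : 𝒟} {f : X₁ ⟶ X₂} {g : X₂ ⟶ X₃} {h : X₃ ⟶ X₁⟦(1 : ℤ)⟧}
    (hT : Triangle.mk f g h ∈ distTriang 𝒟) {Y : 𝒟} (i : ℤ) (φ : Y ⟶ X₂⟦i⟧)
    (hφ : φ ≫ g⟦i⟧' = 0) : ∃ ψ : Y ⟶ X₁⟦i⟧, φ = ψ ≫ f⟦i⟧' := by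
  obtain ⟨δ, hT'⟩ := shifted hT i
  obtain ⟨ψ, hψ⟩ : ∃ ψ : Y ⟶ X₁⟦i⟧, φ = ψ ≫ (i.negOnePow • f⟦i⟧') :=
    Triangle.coyoneda_exact₂ _ hT' φ (by
      change φ ≫ (i.negOnePow • g⟦i⟧') = 0
      rw [comp_unit_smul, hφ, smul_zero])
  refine ⟨i.negOnePow • ψ, ?_⟩
  rw [unit_smul_comp, hψ, comp_unit_smul]

/-- vanishing against the third vertex gives bijections -/
theorem bij_of_zero {X₁ X₂ X₃ : 𝒟} {f : X₁ ⟶ X₂} {g : X₂ ⟶ X₃} {h : X₃ ⟶ X₁⟦(1 : ℤ)⟧}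
    (hT : Triangle.mk f g h ∈ distTriang 𝒟) {Y : 𝒟} (hz : ∀ (i : ℤ) (φ : Y ⟶ X₃⟦i⟧), φ = 0)
    (i : ℤ) : Function.Bijective fun φ : Y ⟶ X₁⟦i⟧ => φ ≫ f⟦i⟧' := by
  constructor
  · intro φ φ' hφφ'
    have h0 : (φ - φ') ≫ f⟦i⟧' = 0 := by
      rw [Preadditive.sub_comp, sub_eq_zero]
      exact hφφ'
    rw [← sub_eq_zero]
    generalize φ - φ' = φ at h0
    have hj : (i - 1) + 1 = i := by omega
    set α := (shiftFunctorAdd' 𝒟 (i - 1) 1 i hj).hom.app X₁ with hα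
    obtain ⟨δ, hT'⟩ := shifted hT (i - 1)
    obtain ⟨ψ, hψ⟩ : ∃ ψ : Y ⟶ X₃⟦i - 1⟧, φ ≫ α = ψ ≫ δ :=
      Triangle.coyoneda_exact₁ _ hT' (φ ≫ α) (by
        change (φ ≫ α) ≫ ((i - 1).negOnePow • f⟦i - 1⟧')⟦(1 : ℤ)⟧' = 0
        rw [map_unit_smul, comp_unit_smul, Category.assoc]
        have hn := (shiftFunctorAdd' 𝒟 (i - 1) 1 i hj).hom.naturality f
        rw [Functor.comp_map] at hn
        rw [hα, ← hn, ← Category.assoc, h0, zero_comp, smul_zero])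
    have hψ0 : ψ = 0 := hz (i - 1) ψ
    rw [hψ0, zero_comp] at hψ
    exact (cancel_mono α).1 (hψ.trans zero_comp.symm)
  · intro φ
    obtain ⟨ψ, hψ⟩ := exact_mid hT i φ (hz i _)
    exact ⟨ψ, hψ.symm⟩

/-- bijections give vanishing against the third vertex -/
theorem zero_of_bij {X₁ X₂ X₃ : 𝒟} {f : X₁ ⟶ X₂} {g : X₂ ⟶ X₃} {h : X₃ ⟶ X₁⟦(1 : ℤ)⟧}
    (hT : Triangle.mk f g h ∈ distTriang 𝒟) {Y : 𝒟}
    (hb : ∀ i : ℤ, Function.Bijective fun φ : Y ⟶ X₁⟦i⟧ => φ ≫ f⟦i⟧') (i : ℤ)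
    (φ : Y ⟶ X₃⟦i⟧) : φ = 0 := by
  obtain ⟨δ, hT'⟩ := shifted hT i
  have hfg : f ≫ g = 0 := comp_distTriang_mor_zero₁₂ _ hT
  have h31 : δ ≫ (i.negOnePow • f⟦i⟧')⟦(1 : ℤ)⟧' = 0 := comp_distTriang_mor_zero₃₁ _ hT'
  rw [map_unit_smul, comp_unit_smul] at h31
  replace h31 := unit_smul_eq_zero _ h31
  set β := (shiftFunctorAdd' 𝒟 i 1 (i + 1) rfl).inv.app X₁ with hβ
  have h0 : φ ≫ δ = 0 := by
    have h2 : (φ ≫ δ ≫ β) ≫ f⟦i + 1⟧' = 0 := by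
      have hn := (shiftFunctorAdd' 𝒟 i 1 (i + 1) rfl).inv.naturality f
      rw [Functor.comp_map] at hn
      rw [Category.assoc, Category.assoc, hβ, ← hn, ← Category.assoc δ, h31, zero_comp, comp_zero]
    have h3 : φ ≫ δ ≫ β = 0 := by
      apply (hb (i + 1)).1
      change (φ ≫ δ ≫ β) ≫ f⟦i + 1⟧' = 0 ≫ f⟦i + 1⟧'
      rw [h2, zero_comp]
    have h4 : (φ ≫ δ) ≫ β = 0 := by rw [Category.assoc]; exact h3
    exact (cancel_mono β).1 (h4.trans zero_comp.symm)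
  obtain ⟨ψ, hψ⟩ : ∃ ψ : Y ⟶ X₂⟦i⟧, φ = ψ ≫ (i.negOnePow • g⟦i⟧') :=
    Triangle.coyoneda_exact₃ _ hT' φ h0
  obtain ⟨χ, hχ⟩ := (hb i).2 ψ
  change χ ≫ f⟦i⟧' = ψ at hχ
  rw [hψ, ← hχ, comp_unit_smul, Category.assoc, ← Functor.map_comp, hfg, Functor.map_zero,
    comp_zero, smul_zero]

variable [Linear ℂ 𝒟]

theorem chi_congr {E E' F F' : 𝒟} (e : E ≅ E') (f : F ≅ F') : chi E F = chi E' F' := by
  unfold chi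
  congr 1
  funext i
  congr 2
  exact (Linear.homCongr ℂ e ((shiftFunctor 𝒟 i).mapIso f)).finrank_eq

variable [∀ n : ℤ, Functor.Linear ℂ (shiftFunctor 𝒟 n)]

/-- moving a shift -/
noncomputable def moveShift (E F : 𝒟) (i j : ℤ) : (E⟦i⟧ ⟶ F⟦j⟧) ≃ₗ[ℂ] (E ⟶ F⟦j - i⟧) :=
  LinearEquiv.symm <| LinearEquiv.trans
    (LinearEquiv.ofBijective ((shiftFunctor 𝒟 i).mapLinearMap ℂ (X := E) (Y := F⟦j - i⟧))
      ⟨(shiftFunctor 𝒟 i).map_injective, (shiftFunctor 𝒟 i).map_surjective⟩)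
    (Linear.homCongr ℂ (Iso.refl _) ((shiftFunctorAdd' 𝒟 (j - i) i j (by omega)).symm.app F))

theorem finrank_serre {K : 𝒟 ⥤ 𝒟} (hS : SerreDuality 𝒟 K) (E F : 𝒟) (i : ℤ) :
    Module.finrank ℂ (E ⟶ F⟦i⟧) = Module.finrank ℂ (F ⟶ (K.obj E)⟦2 - i⟧) := by
  obtain ⟨η, -⟩ := hS
  rw [(η E (F⟦i⟧)).finrank_eq, Subspace.dual_finrank_eq, (moveShift F (K.obj E) i 2).finrank_eq]

/-- the Euler form and Serre duality -/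
theorem chi_serre {K : 𝒟 ⥤ 𝒟} (hS : SerreDuality 𝒟 K) (E F : 𝒟) : chi E F = chi F (K.obj E) := by
  unfold chi
  rw [← finsum_comp_equiv (Equiv.subLeft (2 : ℤ))]
  congr 1
  funext i
  rw [finrank_serre hS, Equiv.subLeft_apply, Int.negOnePow_sub, show Int.negOnePow 2 = 1 from rfl,
    one_mul, sub_sub_cancel]

end Pool.Agent.N801.KO
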