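import Pool.Agent.N801.KO.Ko

/-!
# Embeddings in the derived category of a surface
-/

set_option autoImplicit false
set_option linter.unusedSectionVars false

open CategoryTheory CategoryTheory.Limits CategoryTheory.Pretriangulated

universe v u u'

namespace Pool.Agent.N801.KO

variable {𝒜 : Type u'} [Category.{v} 𝒜] [Preadditive 𝒜] [HasZeroObject 𝒜] [HasShift 𝒜 ℤ]
  [∀ n : ℤ, (shiftFunctor 𝒜 n).Additive] [Pretriangulated 𝒜] [Linear ℂ 𝒜]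
  {𝒟 : Type u} [Category.{v} 𝒟] [Preadditive 𝒟] [HasZeroObject 𝒟] [HasShift 𝒟 ℤ]
  [∀ n : ℤ, (shiftFunctor 𝒟 n).Additive] [Pretriangulated 𝒟] [Linear ℂ 𝒟]
  [∀ n : ℤ, Functor.Linear ℂ (shiftFunctor 𝒟 n)]

section

variable (Φ : 𝒜 ⥤ 𝒟) [Φ.CommShift ℤ] [Φ.IsTriangulated] [Functor.Linear ℂ Φ]

theorem chi_universal {R : 𝒜} {F : 𝒟} (u : F ⟶ Φ.obj R)
    (hu : ∀ E : 𝒜, Function.Bijective fun f : R ⟶ E => u ≫ Φ.map f) (G : 𝒜) :
    chi R G = chi F (Φ.obj G) := by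
  unfold chi
  congr 1
  funext i
  congr 2
  have e1 : (R ⟶ G⟦i⟧) ≃ₗ[ℂ] (F ⟶ Φ.obj (G⟦i⟧)) :=
    LinearEquiv.ofBijective ((Linear.leftComp ℂ (Φ.obj (G⟦i⟧)) u).comp (Φ.mapLinearMap ℂ))
      (hu (G⟦i⟧))
  have e2 : (F ⟶ Φ.obj (G⟦i⟧)) ≃ₗ[ℂ] (F ⟶ (Φ.obj G)⟦i⟧) :=
    Linear.homCongr ℂ (Iso.refl F) ((Φ.commShiftIso i).app G)
  exact (e1.trans e2).finrank_eq

theorem chi_map [Φ.Full] [Φ.Faithful] (E F : 𝒜) : chi E F = chi (Φ.obj E) (Φ.obj F) := by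
  refine chi_universal Φ (𝟙 _) (fun G => ?_) F
  have e : (fun f : E ⟶ G => 𝟙 (Φ.obj E) ≫ Φ.map f) = fun f : E ⟶ G => Φ.map f := by
    funext f
    rw [Category.id_comp]
  rw [e]
  exact ⟨Φ.map_injective, Φ.map_surjective⟩

/-- the object `b` in the triangle `b ⟶ k ⟶ Φ R` is left orthogonal to the image of `Φ` -/
theorem orth_of_universal [Φ.Full] {R : 𝒜} {b k : 𝒟} {f : b ⟶ k} {g : k ⟶ Φ.obj R}
    {h : Φ.obj R ⟶ b⟦(1 : ℤ)⟧} (hT : Triangle.mk f g h ∈ distTriang 𝒟)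
    (hu : ∀ E : 𝒜, Function.Bijective fun f : R ⟶ E => g ≫ Φ.map f) (E : 𝒜)
    (φ : b ⟶ Φ.obj E) : φ = 0 := by
  have hfg : f ≫ g = 0 := comp_distTriang_mor_zero₁₂ _ hT
  have hgh : g ≫ h = 0 := comp_distTriang_mor_zero₂₃ _ hT
  -- the map from `Φ R`
  have h1 : h ≫ φ⟦(1 : ℤ)⟧' = 0 := by
    obtain ⟨ψ, hψ⟩ := Φ.map_surjective (h ≫ φ⟦(1 : ℤ)⟧' ≫ (Φ.commShiftIso (1 : ℤ)).inv.app E)
    have h2 : ψ = 0 := by
      apply (hu _).1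
      change g ≫ Φ.map ψ = g ≫ Φ.map 0
      rw [hψ, ← Category.assoc, hgh, zero_comp, Functor.map_zero, comp_zero]
    rw [h2, Functor.map_zero, ← Category.assoc] at hψ
    exact (cancel_mono ((Φ.commShiftIso (1 : ℤ)).inv.app E)).1 (hψ.symm.trans zero_comp.symm)
  obtain ⟨ψ, hψ⟩ : ∃ ψ : k⟦(1 : ℤ)⟧ ⟶ (Φ.obj E)⟦(1 : ℤ)⟧, φ⟦(1 : ℤ)⟧' = (-f⟦(1 : ℤ)⟧') ≫ ψ :=
    Triangle.yoneda_exact₃ _ (rot_of_distTriang _ hT) (φ⟦(1 : ℤ)⟧') h1
  obtain ⟨ψ', hψ'⟩ := (shiftFunctor 𝒟 (1 : ℤ)).map_surjective ψ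
  obtain ⟨θ, hθ⟩ := (hu E).2 ψ'
  change g ≫ Φ.map θ = ψ' at hθ
  apply (shiftFunctor 𝒟 (1 : ℤ)).map_injective
  rw [hψ, ← hψ', ← hθ, Functor.map_zero, Preadditive.neg_comp, ← Functor.map_comp,
    ← Category.assoc, hfg, zero_comp, Functor.map_zero, neg_zero]

/-- **Embeddings of saturated categories in the derived category of a surface.** -/
theorem embed_cases [Φ.Full] [Φ.Faithful] (hA : Saturated 𝒜) (S : SurfaceCat 𝒟) :
    (∃ R G : 𝒜, chi R R = 0 ∧ chi G R = 1) ∨ (∃ k ∈ S.pt, ∀ E : 𝒜, chi k (Φ.obj E) = 0) ∨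
      Unimodular 𝒟 := by
  rcases S.genus with ⟨s, k, hk, hs⟩ | hU
  swap
  · exact Or.inr (Or.inr hU)
  let _ := S.commShift
  have _ := S.triangulated
  obtain ⟨R, u, hu⟩ := exists_universal Φ hA S.finite k
  obtain ⟨b, f, h, hT⟩ := distinguished_cocone_triangle₁ u
  have hz : ∀ (i : ℤ) (φ : b ⟶ (Φ.obj R)⟦i⟧), φ = 0 := by
    intro i φ
    have h1 := orth_of_universal Φ hT hu (R⟦i⟧) (φ ≫ (Φ.commShiftIso i).inv.app R)
    exact (cancel_mono ((Φ.commShiftIso i).inv.app R)).1 (h1.trans zero_comp.symm)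
  have h0 := ko S.finite S.serre s hT hs hz
  rcases cases_of_split hT h0 (S.pt_end k hk) with hiso | hzero
  · left
    obtain ⟨F, hF⟩ := S.pt_rank k hk
    obtain ⟨G, w, hw⟩ := exists_universal Φ hA S.finite F
    refine ⟨R, G, ?_, ?_⟩
    · rw [chi_map Φ R R, ← chi_congr (asIso u) (asIso u)]
      exact S.pt_self k hk
    · rw [chi_universal Φ w hw R, ← chi_congr (Iso.refl F) (asIso u)]
      exact hF
  · right
    left
    refine ⟨k, hk, fun E => ?_⟩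
    have hu0 : u = 0 := by rw [← Category.comp_id u, hzero, comp_zero]
    have hall : ∀ (i : ℤ) (φ : k ⟶ (Φ.obj E)⟦i⟧), φ = 0 := by
      intro i φ
      obtain ⟨θ, hθ⟩ := (hu (E⟦i⟧)).2 (φ ≫ (Φ.commShiftIso i).inv.app E)
      change u ≫ Φ.map θ = φ ≫ (Φ.commShiftIso i).inv.app E at hθ
      rw [hu0, zero_comp] at hθ
      exact (cancel_mono ((Φ.commShiftIso i).inv.app E)).1 (hθ.symm.trans zero_comp.symm)
    unfold chi
    rw [finsum_eq_zero_of_forall_eq_zero]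
    intro i
    have hs : Subsingleton (k ⟶ (Φ.obj E)⟦i⟧) := ⟨fun x y => by rw [hall i x, hall i y]⟩
    rw [Module.finrank_zero_of_subsingleton]
    simp

/-- numerical consequence of unimodularity -/
theorem unimodular_embed [Φ.Full] [Φ.Faithful] (hA : Saturated 𝒜) (S : SurfaceCat 𝒟)
    (hU : Unimodular 𝒟) (e : 𝒜) (m : ℤ) (he : ∀ G : 𝒜, m ∣ chi G e) :
    ∃ e' : 𝒜, ∀ G : 𝒜, chi e G = m * chi e' G := by
  have _ := S.equivalence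
  obtain ⟨e1, he1⟩ := hU (Φ.obj e) m (fun F => by
    obtain ⟨G, w, hw⟩ := exists_universal Φ hA S.finite F
    rw [← chi_universal Φ w hw e]
    exact he G)
  obtain ⟨e', w, hw⟩ := exists_universal Φ hA S.finite e1
  refine ⟨e', fun G => ?_⟩
  rw [chi_universal Φ w hw G, chi_map Φ e G]
  -- Serre duality
  obtain ⟨G', ⟨i⟩⟩ : ∃ G' : 𝒟, Nonempty (S.K.obj G' ≅ Φ.obj G) :=
    ⟨_, ⟨S.K.objObjPreimageIso (Φ.obj G)⟩⟩
  rw [← chi_congr (Iso.refl (Φ.obj e)) i, ← chi_congr (Iso.refl e1) i, ← chi_serre S.serre,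
    ← chi_serre S.serre]
  exact he1 G'

end

end Pool.Agent.N801.KO
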