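import Pool.Agent.N801.KO.Basic

/-!
# Semiorthogonal decompositions and points outside the canonical base locus

The argument of Kawatani and Okawa, and the adjoint of an embedding of a saturated category.
-/

set_option autoImplicit false
set_option linter.unusedSectionVars false

open CategoryTheory CategoryTheory.Limits CategoryTheory.Pretriangulated

universe v u u'

namespace Pool.Agent.N801.KO

section

variable {𝒟 : Type u} [Category.{v} 𝒟] [Preadditive 𝒟] [HasZeroObject 𝒟] [HasShift 𝒟 ℤ]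
  [∀ n : ℤ, (shiftFunctor 𝒟 n).Additive] [Pretriangulated 𝒟] [Linear ℂ 𝒟]
  [∀ n : ℤ, Functor.Linear ℂ (shiftFunctor 𝒟 n)]

/-- **The lemma of Kawatani and Okawa.** -/
theorem ko (hfin : FiniteType 𝒟) {K : 𝒟 ⥤ 𝒟} [K.CommShift ℤ] [K.IsTriangulated]
    (hS : SerreDuality 𝒟 K) (s : 𝟭 𝒟 ⟶ K) {b k a : 𝒟} {f : b ⟶ k} {g : k ⟶ a}
    {h : a ⟶ b⟦(1 : ℤ)⟧} (hT : Triangle.mk f g h ∈ distTriang 𝒟) (hk : IsIso (s.app k))
    (hz : ∀ (i : ℤ) (φ : b ⟶ a⟦i⟧), φ = 0) : h = 0 := by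
  have hb1 := bij_of_zero hT hz
  have hnat : f ≫ s.app k = s.app b ≫ K.map f := s.naturality f
  -- the maps given by `s`
  have hcomp : ∀ (i : ℤ) (φ : b ⟶ b⟦i⟧),
      (φ ≫ (s.app b)⟦i⟧') ≫ (K.map f)⟦i⟧' = (φ ≫ f⟦i⟧') ≫ (s.app k)⟦i⟧' := by
    intro i φ
    rw [Category.assoc, Category.assoc]
    congr 1
    have h1 : (shiftFunctor 𝒟 i).map (s.app b) ≫ (shiftFunctor 𝒟 i).map (K.map f) =
        (shiftFunctor 𝒟 i).map (s.app b ≫ K.map f) := (Functor.map_comp _ _ _).symm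
    have h2 : (shiftFunctor 𝒟 i).map f ≫ (shiftFunctor 𝒟 i).map (s.app k) =
        (shiftFunctor 𝒟 i).map (f ≫ s.app k) := (Functor.map_comp _ _ _).symm
    rw [h2, hnat]
    exact h1
  have hinj : ∀ i : ℤ, Function.Injective fun φ : b ⟶ b⟦i⟧ => φ ≫ (s.app b)⟦i⟧' := by
    intro i φ φ' he
    have he' : φ ≫ (s.app b)⟦i⟧' = φ' ≫ (s.app b)⟦i⟧' := he
    apply (hb1 i).1
    change φ ≫ f⟦i⟧' = φ' ≫ f⟦i⟧'
    have h1 := hcomp i φ
    rw [he', hcomp i φ'] at h1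
    exact ((cancel_mono ((s.app k)⟦i⟧')).1 h1).symm
  let S : ∀ i : ℤ, (b ⟶ b⟦i⟧) →ₗ[ℂ] (b ⟶ (K.obj b)⟦i⟧) := fun i =>
    Linear.rightComp ℂ b ((s.app b)⟦i⟧')
  have hf1 : ∀ i : ℤ, Module.Finite ℂ (b ⟶ b⟦i⟧) := fun i => (hfin b b).1 i
  have hf2 : ∀ i : ℤ, Module.Finite ℂ (b ⟶ (K.obj b)⟦i⟧) := fun i => (hfin b (K.obj b)).1 i
  have hle : ∀ i : ℤ, Module.finrank ℂ (b ⟶ b⟦i⟧) ≤ Module.finrank ℂ (b ⟶ (K.obj b)⟦i⟧) :=
    fun i => LinearMap.finrank_le_finrank_of_injective (f := S i) (hinj i)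
  have hdual : ∀ i : ℤ, Module.finrank ℂ (b ⟶ b⟦i⟧) =
      Module.finrank ℂ (b ⟶ (K.obj b)⟦2 - i⟧) := fun i => finrank_serre hS b b i
  have heq : ∀ i : ℤ, Module.finrank ℂ (b ⟶ b⟦i⟧) = Module.finrank ℂ (b ⟶ (K.obj b)⟦i⟧) := by
    intro i
    refine le_antisymm (hle i) ?_
    have h1 := hdual (2 - i)
    rw [sub_sub_cancel] at h1
    have h2 := hle (2 - i)
    have h3 := hdual i
    omega
  have hsurj : ∀ i : ℤ, Function.Bijective fun φ : b ⟶ b⟦i⟧ => φ ≫ (s.app b)⟦i⟧' := by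
    intro i
    refine ⟨hinj i, ?_⟩
    exact (LinearMap.injective_iff_surjective_of_finrank_eq_finrank (f := S i) (heq i)).1 (hinj i)
  have hKf : ∀ i : ℤ, Function.Bijective fun φ : b ⟶ (K.obj b)⟦i⟧ => φ ≫ (K.map f)⟦i⟧' := by
    intro i
    apply (Function.Bijective.of_comp_iff _ (hsurj i)).1
    have e : ((fun φ : b ⟶ (K.obj b)⟦i⟧ => φ ≫ (K.map f)⟦i⟧') ∘
        fun φ : b ⟶ b⟦i⟧ => φ ≫ (s.app b)⟦i⟧') =
        (fun φ : b ⟶ k⟦i⟧ => φ ≫ (s.app k)⟦i⟧') ∘ fun φ : b ⟶ b⟦i⟧ => φ ≫ f⟦i⟧' := by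
      funext φ
      exact hcomp i φ
    rw [e]
    refine Function.Bijective.comp ⟨?_, ?_⟩ (hb1 i)
    · intro φ φ' he
      exact (cancel_mono ((s.app k)⟦i⟧')).1 he
    · intro φ
      refine ⟨φ ≫ inv ((s.app k)⟦i⟧'), ?_⟩
      change (φ ≫ inv ((s.app k)⟦i⟧')) ≫ (s.app k)⟦i⟧' = φ
      rw [Category.assoc, IsIso.inv_hom_id, Category.comp_id]
  have hKT : Triangle.mk (K.map f) (K.map g) (K.map h ≫ (K.commShiftIso (1 : ℤ)).hom.app b) ∈
      distTriang 𝒟 := K.map_distinguished _ hT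
  have hz' := zero_of_bij hKT hKf
  obtain ⟨η, -⟩ := hS
  apply (η a (b⟦(1 : ℤ)⟧)).injective
  rw [map_zero]
  apply LinearMap.ext
  intro w
  have hw : w = 0 := by
    apply (moveShift b (K.obj a) 1 2).injective
    rw [map_zero]
    exact hz' _ _
  rw [hw, map_zero, map_zero]

/-- the two cases for an object with one-dimensional endomorphism ring -/
theorem cases_of_split {b k a : 𝒟} {f : b ⟶ k} {g : k ⟶ a}
    {h : a ⟶ b⟦(1 : ℤ)⟧} (hT : Triangle.mk f g h ∈ distTriang 𝒟) (h0 : h = 0)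
    (hend : Module.finrank ℂ (k ⟶ k) = 1) : IsIso g ∨ 𝟙 a = 0 := by
  obtain ⟨σ, hσ⟩ : ∃ σ : a ⟶ k, 𝟙 a = σ ≫ g := Triangle.coyoneda_exact₃ _ hT (𝟙 a) (by
    change 𝟙 a ≫ h = 0
    rw [h0, comp_zero])
  have hne : 𝟙 k ≠ 0 := by
    intro h1
    have hs : Subsingleton (k ⟶ k) := ⟨fun x y => by
      rw [← Category.comp_id x, ← Category.comp_id y, h1, comp_zero, comp_zero]⟩
    rw [Module.finrank_zero_of_subsingleton] at hend
    norm_num at hend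
  obtain ⟨c, hc⟩ := (finrank_eq_one_iff_of_nonzero' (𝟙 k) hne).1 hend (g ≫ σ)
  have he : (g ≫ σ) ≫ (g ≫ σ) = g ≫ σ := by
    rw [Category.assoc, ← Category.assoc σ, ← hσ, Category.id_comp]
  rw [← hc, Linear.smul_comp, Category.id_comp, smul_smul] at he
  have hcc : c * c = c := by
    have h1 : (c * c - c) • 𝟙 k = 0 := by rw [sub_smul, he, sub_self]
    have h2 := (smul_eq_zero.1 h1).resolve_right hne
    linear_combination h2
  have hc01 : c = 0 ∨ c = 1 := by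
    have : c * (c - 1) = 0 := by linear_combination hcc
    rcases mul_eq_zero.1 this with h | h
    · exact Or.inl h
    · exact Or.inr (sub_eq_zero.1 h)
  rcases hc01 with rfl | rfl
  · right
    rw [zero_smul] at hc
    calc 𝟙 a = (σ ≫ g) ≫ (σ ≫ g) := by rw [← hσ, Category.comp_id]
      _ = σ ≫ (g ≫ σ) ≫ g := by simp only [Category.assoc]
      _ = 0 := by rw [← hc, zero_comp, comp_zero]
  · left
    rw [one_smul] at hc
    exact ⟨σ, hc.symm, hσ.symm⟩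

end

section

variable {𝒜 : Type u'} [Category.{v} 𝒜] [Preadditive 𝒜] [HasZeroObject 𝒜] [HasShift 𝒜 ℤ]
  [∀ n : ℤ, (shiftFunctor 𝒜 n).Additive] [Pretriangulated 𝒜] [Linear ℂ 𝒜]
  {𝒟 : Type u} [Category.{v} 𝒟] [Preadditive 𝒟] [HasZeroObject 𝒟] [HasShift 𝒟 ℤ]
  [∀ n : ℤ, (shiftFunctor 𝒟 n).Additive] [Pretriangulated 𝒟] [Linear ℂ 𝒟]

/-- the functor `E ↦ Hom(F, Φ E)` -/
@[simps] noncomputable def homFun (Φ : 𝒜 ⥤ 𝒟) (F : 𝒟) : 𝒜 ⥤ ModuleCat.{v} ℂ where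
  obj E := ModuleCat.of ℂ (F ⟶ Φ.obj E)
  map f := ModuleCat.ofHom (Linear.rightComp ℂ F (Φ.map f))
  map_id E := by
    ext φ
    simp
  map_comp f g := by
    ext φ
    simp

variable (Φ : 𝒜 ⥤ 𝒟) [Φ.CommShift ℤ] [Φ.IsTriangulated] [Functor.Linear ℂ Φ]

/-- universal arrows -/
theorem exists_universal (hA : Saturated 𝒜) (hfin : FiniteType 𝒟) (F : 𝒟) :
    ∃ (R : 𝒜) (u : F ⟶ Φ.obj R), ∀ E : 𝒜, Function.Bijective fun f : R ⟶ E => u ≫ Φ.map f := by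
  have hadd : (homFun Φ F).Additive := ⟨by
    intro X Y f g
    have key : ∀ φ : F ⟶ Φ.obj X, φ ≫ Φ.map (f + g) = φ ≫ Φ.map f + φ ≫ Φ.map g := by
      intro φ
      rw [Functor.map_add, Preadditive.comp_add]
    ext φ
    exact key φ⟩
  have hlin : Functor.Linear ℂ (homFun Φ F) := ⟨by
    intro X Y f r
    have key : ∀ φ : F ⟶ Φ.obj X, φ ≫ Φ.map (r • f) = r • (φ ≫ Φ.map f) := by
      intro φ
      rw [Functor.map_smul, Linear.comp_smul]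
    ext φ
    exact key φ⟩
  obtain ⟨R, x, hx⟩ := hA (homFun Φ F) (by
    intro T hT
    have hΦT := Φ.map_distinguished T hT
    intro φ
    constructor
    · intro h0
      obtain ⟨ψ, hψ⟩ : ∃ ψ : F ⟶ Φ.obj T.obj₁, φ = ψ ≫ Φ.map T.mor₁ :=
        Triangle.coyoneda_exact₂ _ hΦT φ h0
      exact ⟨ψ, hψ.symm⟩
    · rintro ⟨ψ, hψ⟩
      have h12 : Φ.map T.mor₁ ≫ Φ.map T.mor₂ = 0 := by
        rw [← Functor.map_comp, comp_distTriang_mor_zero₁₂ _ hT, Functor.map_zero]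
      have key : ∀ ψ' : F ⟶ Φ.obj T.obj₁, (ψ' ≫ Φ.map T.mor₁) ≫ Φ.map T.mor₂ = 0 := by
        intro ψ'
        rw [Category.assoc, h12, comp_zero]
      change φ ≫ Φ.map T.mor₂ = 0
      rw [← hψ]
      exact key ψ) (by
    intro E
    have e : ∀ i : ℤ, (F ⟶ (Φ.obj E)⟦i⟧) ≃ₗ[ℂ] (F ⟶ Φ.obj (E⟦i⟧)) := fun i =>
      Linear.homCongr ℂ (Iso.refl F) ((Φ.commShiftIso i).symm.app E)
    constructor
    · intro i
      have := (hfin F (Φ.obj E)).1 i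
      exact Module.Finite.equiv (e i)
    · refine (hfin F (Φ.obj E)).2.subset ?_
      rintro i ⟨x, hx⟩
      refine ⟨(e i).symm x, fun h0 => hx ?_⟩
      exact (LinearEquiv.map_eq_zero_iff (e i).symm).1 h0)
  exact ⟨R, x, hx⟩

end

end Pool.Agent.N801.KO
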