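import Pool.Agent.N801.CF.Orders

/-!
# Numerical consequences of an embedding in the derived category of a surface
-/

set_option autoImplicit false

namespace Pool.Agent.N801.KO

open Pool.Agent.Y95.Q Pool.Agent.Y95.Q.H4 Pool.Agent.X328.CF Pool.Agent.N801.CF

variable {X : CubicFourfold} {H : H4 X}

theorem hasK3_of_levels (hH : H.IsCohomology) (hr : 2 ≤ H.rank)
    (hlev : ∀ p : ℕ, p.Prime → p % 3 ≠ 1 → HasLevel H p 0) : H.HasK3 := by
  obtain ⟨r, hr'⟩ := (exists_order_iff hH).2 ⟨hr, fun p hp h3 => ⟨0, hlev p hp h3⟩⟩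
  obtain ⟨v, hv, h0, a, b, hab⟩ := exists_of_order hH hr'
  obtain ⟨r0, h1, -, h3⟩ := least_order hH hv h0 (a0 := a) (b0 := b) hab
  have hr0 : r0 = 1 := by
    by_contra hne
    obtain ⟨q, hq, hqd⟩ := Nat.exists_prime_and_dvd hne
    by_cases hq3 : q % 3 = 1
    · exact (h3 q hq).1 hq3 hqd
    · exact (((h3 q hq).2 hq3 0).1 (hlev q hq hq3)) (by rw [zero_add, pow_one]; exact hqd)
  rw [hr0] at h1
  exact (order_one_iff hH).1 h1

/-- the pairing is symmetric -/
theorem pairing_comm (hH : H.IsCohomology) {v v' : Fin 23 → ℤ} {a b a' b' : ℤ}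
    (hw : InMukai H v a b) (hw' : InMukai H v' a' b') :
    mukaiPairing H v a b v' a' b' = mukaiPairing H v' a' b' v a b := by
  have h1 := three_pairing hw hw'
  have h2 := three_pairing hw' hw
  rw [hH.comm v' v] at h2
  unfold tr at h1 h2
  linarith

theorem inMukai_add (hH : H.IsCohomology) {v : Fin 23 → ℤ} {a b : ℤ} (l : ℤ)
    (hw : InMukai H v a b) : InMukai H (v + l • H.h) a b := by
  refine ⟨H.isHodge_add hw.1 (H.isHodge_smul _ hH.h_hodge), ?_⟩
  have h1 := hw.2
  rw [ip_add_right, ip_smul_right, hH.h_self]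
  omega

theorem inMukai_of_add (hH : H.IsCohomology) {v : Fin 23 → ℤ} {a b : ℤ} (l : ℤ)
    (hw : InMukai H (v + l • H.h) a b) : InMukai H v a b := by
  have h1 := inMukai_add hH (-l) hw
  have e : v + l • H.h + (-l) • H.h = v := by
    rw [neg_smul, add_neg_cancel_right]
  rwa [e] at h1

/-- the pairing does not see multiples of `h` -/
theorem pairing_shift (hH : H.IsCohomology) {v v' : Fin 23 → ℤ} {a b a' b' : ℤ} (l : ℤ)
    (hw : InMukai H v a b) (hw' : InMukai H v' a' b') :
    mukaiPairing H v a b (v' + l • H.h) a' b' = mukaiPairing H v a b v' a' b' := by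
  have h1 := three_pairing hw hw'
  have h2 := three_pairing hw (inMukai_add hH l hw')
  rw [ip_add_right, ip_smul_right, ip_add_right, ip_smul_right, hH.h_self, hH.comm v H.h] at h2
  linarith

theorem pairing_shift_left (hH : H.IsCohomology) {v v' : Fin 23 → ℤ} {a b a' b' : ℤ} (l : ℤ)
    (hw : InMukai H v a b) (hw' : InMukai H v' a' b') :
    mukaiPairing H (v + l • H.h) a b v' a' b' = mukaiPairing H v a b v' a' b' := by
  rw [pairing_comm hH (inMukai_add hH l hw) hw', pairing_shift hH l hw' hw, pairing_comm hH hw' hw]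

theorem pairing_smul {v v' : Fin 23 → ℤ} {a b a' b' : ℤ} (m : ℤ)
    (hw : InMukai H v a b) (hw' : InMukai H v' a' b') (hm : InMukai H (m • v') (m * a') (m * b')) :
    mukaiPairing H v a b (m • v') (m * a') (m * b') = m * mukaiPairing H v a b v' a' b' := by
  have h1 := three_pairing hw hw'
  have h2 := three_pairing hw hm
  rw [ip_smul_right, ip_smul_right] at h2
  have h3 : 3 * mukaiPairing H v a b (m • v') (m * a') (m * b') =
      3 * (m * mukaiPairing H v a b v' a' b') := by
    rw [h2]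
    unfold tr at *
    linear_combination (-m) * h1
  linarith

/-- an isotropic element with divisibility one -/
theorem order_one_of_isotropic (hH : H.IsCohomology) {v v' : Fin 23 → ℤ} {a b a' b' : ℤ}
    (hw : InMukai H v a b) (hw' : InMukai H v' a' b') (h0 : mukaiPairing H v a b v a b = 0)
    (h1 : mukaiPairing H v' a' b' v a b = -1) : H.HasK3 := by
  refine (order_one_iff hH).1 ⟨one_pos, v, a, b, hw, h0, ?_, ?_⟩
  · intro m l v'' a'' b'' hw'' hv ha hb
    have hm : InMukai H (m • v'') (m * a'') (m * b'') := by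
      rw [hv, ha, hb] at hw
      exact inMukai_of_add hH l hw
    rw [hv, ha, hb, pairing_shift hH l hw' hm, pairing_smul m hw' hw'' hm] at h1
    exact IsUnit.of_mul_eq_one (-mukaiPairing H v' a' b' v'' a'' b'') (by linarith)
  · intro s
    constructor
    · intro h
      have h2 := h v' a' b' hw'
      rw [pairing_comm hH hw hw', h1] at h2
      exact_mod_cast (dvd_neg.1 h2)
    · intro h v'' a'' b'' _
      have h2 : s ∣ 1 := by exact_mod_cast h
      exact h2.trans (one_dvd _)

/-- **The numerical consequence of unimodularity.** -/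
theorem hasK3_of_div (hH : H.IsCohomology)
    (hdiv : ∀ (m : ℤ) (v : Fin 23 → ℤ) (a b : ℤ), InMukai H v a b →
      (∀ (w : Fin 23 → ℤ) (c d : ℤ), InMukai H w c d → m ∣ mukaiPairing H w c d v a b) →
      ∃ (v' : Fin 23 → ℤ) (a' b' : ℤ), InMukai H v' a' b' ∧
        ∀ (w : Fin 23 → ℤ) (c d : ℤ), InMukai H w c d →
          mukaiPairing H v a b w c d = m * mukaiPairing H v' a' b' w c d) : H.HasK3 := by
  -- the prime three
  obtain ⟨u, hu, hu3⟩ : ∃ u, H.IsHodge u ∧ ¬ (3 : ℤ) ∣ H.ip H.h u := by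
    by_contra hcon
    push Not at hcon
    have hx : InMukai H 0 3 (-3) := ⟨H.isHodge_zero, by rw [ip_zero_right]; norm_num⟩
    obtain ⟨v', a', b', hw', h1⟩ := hdiv 3 0 3 (-3) hx (by
      intro w c d hw
      have h2 := three_pairing hw hx
      rw [ip_zero_right, ip_zero_right] at h2
      have h3 := hw.2
      have h4 := hcon w hw.1
      unfold tr at h2
      omega)
    have h2 := h1 _ _ _ (inMukai_a2 (H := H)).1
    have h3 := h1 _ _ _ (inMukai_a2 (H := H)).2
    rw [pairing_a hx, pairing_a hw'] at h2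
    rw [pairing_b hx, pairing_b hw'] at h3
    have h4 := hw'.2
    have h5 := hcon v' hw'.1
    omega
  have hu1 : (H.disc u / 2) % 3 = 1 := by
    have h1 := half_mod_three hH u
    have hb2 : H.ip H.h u ^ 2 % 3 = 1 := by
      have h1 : H.ip H.h u % 3 = 1 ∨ H.ip H.h u % 3 = 2 := by omega
      rw [pow_two, Int.mul_emod]
      rcases h1 with h | h <;> rw [h] <;> norm_num
    omega
  have hu0 : 0 < H.disc u := by
    rcases (disc_nonneg hH hu).lt_or_eq with h | h
    · exact h
    · rw [← h] at hu1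
      norm_num at hu1
  refine hasK3_of_levels hH (two_le_rank hH hu hu0) fun p hp hp3 => ?_
  by_cases h3 : p = 3
  · subst h3
    exact ⟨u, hu, Good.lev ⟨fun _ => Or.inl hu1, fun h => absurd rfl h⟩⟩
  by_contra hcon
  have hall : ∀ v, H.IsHodge v → (p : ℤ) ∣ H.disc v / 2 := by
    intro v hv
    by_contra h
    exact hcon ⟨v, hv, Good.lev ⟨fun h' => absurd h' h3, fun _ => h⟩⟩
  have hpp := Nat.prime_iff_prime_int.1 hp
  have hp0 : (p : ℤ) ≠ 0 := hpp.ne_zero
  have hp3' : ¬ (p : ℤ) ∣ 3 := by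
    intro h
    have : p ∣ 3 := by exact_mod_cast h
    exact h3 ((Nat.prime_dvd_prime_iff_eq hp Nat.prime_three).1 this)
  have hsq : (p : ℤ) ^ 2 % 3 = 1 := by
    have h4 : ¬ 3 ∣ p := fun h => h3 ((Nat.prime_dvd_prime_iff_eq Nat.prime_three hp).1 h).symm
    have h1 : (p : ℤ) % 3 = 1 ∨ (p : ℤ) % 3 = 2 := by omega
    rw [pow_two, Int.mul_emod]
    rcases h1 with h | h <;> rw [h] <;> norm_num
  -- division by `p`
  have hstep : ∀ v, H.IsHodge v → ∃ v', H.IsHodge v' ∧
      H.disc v / 2 = (p : ℤ) ^ 2 * (H.disc v' / 2) := by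
    intro v hv
    have hb : ∀ w, H.IsHodge w → (p : ℤ) ∣ 3 * H.ip w v - H.ip H.h w * H.ip H.h v := by
      intro w hw
      have h1 := half_add hH w v
      have e : 3 * H.ip w v - H.ip H.h w * H.ip H.h v =
        H.disc (w + v) / 2 - H.disc w / 2 - H.disc v / 2 := by linarith
      rw [e]
      exact dvd_sub (dvd_sub (hall _ (H.isHodge_add hw hv)) (hall w hw)) (hall v hv)
    have hx : InMukai H v ((p : ℤ) ^ 2 * H.ip H.h v) 0 := by
      refine ⟨hv, ?_⟩
      obtain ⟨t, ht⟩ : ∃ t, (p : ℤ) ^ 2 = 1 + 3 * t := ⟨(p : ℤ) ^ 2 / 3, by omega⟩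
      rw [ht]
      exact ⟨t * H.ip H.h v, by ring⟩
    obtain ⟨v', a', b', hw', h1⟩ := hdiv p v _ 0 hx (by
      intro w c d hw
      have h2 := three_pairing hw hx
      obtain ⟨t, ht⟩ := hb w hw.1
      have h4 : (p : ℤ) ∣ 3 * mukaiPairing H w c d v ((p : ℤ) ^ 2 * H.ip H.h v) 0 := by
        rw [h2, ht]
        unfold tr
        exact ⟨2 * c * (p * H.ip H.h v) + d * (p * H.ip H.h v) - t, by ring⟩
      exact (hpp.dvd_or_dvd h4).resolve_left hp3')
    have h2 := h1 _ _ _ (inMukai_a2 (H := H)).1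
    have h3 := h1 _ _ _ (inMukai_a2 (H := H)).2
    rw [pairing_a hx, pairing_a hw'] at h2
    rw [pairing_b hx, pairing_b hw'] at h3
    refine ⟨v', hw'.1, ?_⟩
    have hB : ∀ w, H.IsHodge w → 3 * H.ip v w - H.ip H.h v * H.ip H.h w =
        p * (3 * H.ip v' w - H.ip H.h v' * H.ip H.h w) := by
      intro w hw
      have hwm : InMukai H w (H.ip H.h w) 0 := ⟨hw, by simp⟩
      have e0 := h1 _ _ _ hwm
      have e1 := three_pairing hx hwm
      have e2 := three_pairing hw' hwm
      unfold tr at e1 e2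
      linear_combination (-3) * e0 - (p : ℤ) * e2 + e1 + 2 * H.ip H.h w * h2 + H.ip H.h w * h3
    have h5 := hB v hv
    have h6 := hB v' hw'.1
    have e1 := disc_half hH v
    have e2 := disc_half hH v'
    have e3 : H.disc v = 3 * H.ip v v - H.ip H.h v ^ 2 := rfl
    have e4 : H.disc v' = 3 * H.ip v' v' - H.ip H.h v' ^ 2 := rfl
    have h7 : 2 * (H.disc v / 2) = 2 * ((p : ℤ) ^ 2 * (H.disc v' / 2)) := by
      have h8 : H.disc v = (p : ℤ) ^ 2 * H.disc v' := by
        rw [e3, e4]
        rw [hH.comm v v'] at h6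
        linear_combination h5 + (p : ℤ) * h6
      rw [← e1, h8]
      linear_combination (p : ℤ) ^ 2 * e2
    linarith
  -- infinite descent
  have hdesc : ∀ n : ℕ, ∀ v, H.IsHodge v → H.disc v / 2 = n → n = 0 := by
    intro n
    induction n using Nat.strong_induction_on with
    | _ n ih =>
      intro v hv hn
      obtain ⟨v', hv', h1⟩ := hstep v hv
      have h2 := disc_nonneg hH hv'
      obtain ⟨k, hk⟩ : ∃ k : ℕ, H.disc v' / 2 = k := ⟨(H.disc v' / 2).toNat, by
        rw [Int.toNat_of_nonneg]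
        omega⟩
      rw [hn, hk] at h1
      have h1' : n = p ^ 2 * k := by exact_mod_cast h1
      by_contra hne
      have hk0 : k ≠ 0 := by
        rintro rfl
        exact hne (by rw [h1', mul_zero])
      have hlt : k < n := by
        have hp4 : 4 ≤ p ^ 2 := by
          have hp2 := hp.two_le
          nlinarith
        have h11 : 4 * k ≤ p ^ 2 * k := Nat.mul_le_mul_right k hp4
        omega
      exact hk0 (ih k hlt v' hv' hk)
  have h9 := disc_nonneg hH hu
  have h10 := hdesc (H.disc u / 2).toNat u hu (by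
    rw [Int.toNat_of_nonneg]
    omega)
  omega

end Pool.Agent.N801.KO
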