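import Pool.Agent.N801.KO.Embed
import Pool.Agent.N801.KO.Lattice

/-!
# Kuznetsov components of cubic fourfolds in derived categories of surfaces
-/

set_option autoImplicit false
set_option linter.unusedSectionVars false

open CategoryTheory CategoryTheory.Limits CategoryTheory.Pretriangulated

universe v u u'

namespace Pool.Agent.N801.KO

open Pool.Agent.Y95.Q Pool.Agent.Y95.Q.H4 Pool.Agent.X328.CF Pool.Agent.N801.CF

variable {X : CubicFourfold} {H : H4 X}
  {𝒜 : Type u'} [Category.{v} 𝒜] [Preadditive 𝒜] [HasZeroObject 𝒜] [HasShift 𝒜 ℤ]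
  [∀ n : ℤ, (shiftFunctor 𝒜 n).Additive] [Pretriangulated 𝒜] [Linear ℂ 𝒜]
  {𝒟 : Type u} [Category.{v} 𝒟] [Preadditive 𝒟] [HasZeroObject 𝒟] [HasShift 𝒟 ℤ]
  [∀ n : ℤ, (shiftFunctor 𝒟 n).Additive] [Pretriangulated 𝒟] [Linear ℂ 𝒟]
  [∀ n : ℤ, Functor.Linear ℂ (shiftFunctor 𝒟 n)]

/-- the Euler form of objects with given Mukai vectors -/
theorem chi_objects (hH : H.IsCohomology) (KA : KuznetsovCat H 𝒜) {w w' : Fin 23 → ℤ}
    {a b a' b' : ℤ} (hw : InMukai H w a b) (hw' : InMukai H w' a' b') {E F : 𝒜} {l l' : ℤ}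
    (hE : KA.vec E = (w + l • H.h, a, b)) (hF : KA.vec F = (w' + l' • H.h, a', b')) :
    chi E F = - mukaiPairing H w a b w' a' b' := by
  rw [KA.euler, hE, hF, pairing_shift hH l' (inMukai_add hH l hw) hw', pairing_shift_left hH l hw hw']

theorem vec_eq (KA : KuznetsovCat H 𝒜) (E : 𝒜) :
    KA.vec E = ((KA.vec E).1 + (0 : ℤ) • H.h, (KA.vec E).2.1, (KA.vec E).2.2) := by
  rw [zero_smul, add_zero]

/-- **The main theorem.** -/
theorem hasK3_of_embedding (hH : H.IsCohomology) (KA : KuznetsovCat H 𝒜) (S : SurfaceCat 𝒟)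
    (Φ : 𝒜 ⥤ 𝒟) [Φ.CommShift ℤ] [Φ.IsTriangulated] [Functor.Linear ℂ Φ] [Φ.Full] [Φ.Faithful] :
    H.HasK3 := by
  rcases embed_cases Φ KA.saturated S with ⟨R, G, h0, h1⟩ | ⟨k, hk, hE⟩ | hU
  · rw [KA.euler] at h0 h1
    exact order_one_of_isotropic hH (KA.mem R) (KA.mem G) (by linarith) (by linarith)
  · exfalso
    have hx := (inMukai_a2 (H := H)).1
    have hy := (inMukai_a2 (H := H)).2
    obtain ⟨E, l, hEv⟩ := KA.surj _ _ _ hx
    obtain ⟨F, l', hFv⟩ := KA.surj _ _ _ hy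
    have e1 : chi (Φ.obj E) (Φ.obj E) = -2 := by
      rw [← chi_map Φ E E, chi_objects hH KA hx hx hEv hEv, pairing_a hx]
    have e2 : chi (Φ.obj F) (Φ.obj F) = -2 := by
      rw [← chi_map Φ F F, chi_objects hH KA hy hy hFv hFv, pairing_b hy]
    have e3 : chi (Φ.obj E) (Φ.obj F) = 1 := by
      rw [← chi_map Φ E F, chi_objects hH KA hx hy hEv hFv, pairing_b hx]
      norm_num
    have h1 := S.hodge_index k hk _ _ (hE E) (hE F) (by rw [e1]; norm_num)
    rw [e1, e2, e3] at h1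
    norm_num at h1
  · refine hasK3_of_div hH fun m v a b hw hdiv => ?_
    obtain ⟨e, l, he⟩ := KA.surj v a b hw
    obtain ⟨e', he'⟩ := unimodular_embed Φ KA.saturated S hU e m (fun G => by
      rw [chi_objects hH KA (KA.mem G) hw (vec_eq KA G) he]
      exact (hdiv _ _ _ (KA.mem G)).neg_right)
    refine ⟨(KA.vec e').1, (KA.vec e').2.1, (KA.vec e').2.2, KA.mem e', fun w c d hwm => ?_⟩
    obtain ⟨G, l', hG⟩ := KA.surj w c d hwm
    have h1 := he' G
    rw [chi_objects hH KA hw hwm he hG, chi_objects hH KA (KA.mem e') hwm (vec_eq KA e') hG] at h1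
    linarith

end Pool.Agent.N801.KO
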